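import Mathlib

/-!
# Diophantine graphs: reduction to the core

`a, b` are adjacent when `a b + 1` is a square. For `u v` not a square, a solution of the Pell
equation `X² - u v Y² = 1` gives `x = (u + v) Y² + 2 X Y` with `u x + 1` and `v x + 1` squares.
Let `x_n` be the sequence obtained from the powers of one solution. For every other `w`, the set of
`n` with `w x_n + 1` (or `w x_n`) a square contains no three-term progression with large terms
(`noAP`), so by van der Waerden's theorem some (`m` consecutive) `x_n` avoid all unwanted squares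
(`exists_nice`). If `u v + 1` is a square and `Y_1 = 1`, then `x_n x_{n+j} + Y_j²` is a square, so
`x_n` and `x_{n+j}` are adjacent exactly for `j = 1` (`extend3`).
-/

set_option autoImplicit false

namespace Pool.Agent.DiophGraph

/-- Powers of the solution `(p, q)` of the Pell equation `X² - D Y² = 1`. -/
def pw (D p q : ℕ) : ℕ → ℕ × ℕ
  | 0 => (1, 0)
  | n + 1 => (p * (pw D p q n).1 + D * q * (pw D p q n).2, q * (pw D p q n).1 + p * (pw D p q n).2)

theorem pw_norm {D p q : ℕ} (h : p ^ 2 = D * q ^ 2 + 1) (n : ℕ) :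
    (pw D p q n).1 ^ 2 = D * (pw D p q n).2 ^ 2 + 1 := by
  induction n with
  | zero => simp [pw]
  | succ n ih =>
    simp only [pw]
    zify at h ih ⊢
    linear_combination ((pw D p q n).1 ^ 2 - (D:ℤ) * (pw D p q n).2 ^ 2) * h + ih

theorem pw_add {D p q : ℕ} (n d : ℕ) :
    (pw D p q (n + d)).1 = (pw D p q d).1 * (pw D p q n).1 + D * (pw D p q d).2 * (pw D p q n).2 ∧
    (pw D p q (n + d)).2 = (pw D p q d).2 * (pw D p q n).1 + (pw D p q d).1 * (pw D p q n).2 := by
  induction d with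
  | zero => simp [pw]
  | succ d ih =>
    rw [← add_assoc]
    simp only [pw]
    rw [ih.1, ih.2]
    constructor <;> ring

theorem pw_growth {D p q : ℕ} (hp : 2 ≤ p) (n : ℕ) : n + 1 ≤ (pw D p q n).1 := by
  induction n with
  | zero => simp [pw]
  | succ n ih =>
    simp only [pw]
    nlinarith [Nat.zero_le (D * q * (pw D p q n).2)]

theorem pw_snd_pos {D p q : ℕ} (hp : 2 ≤ p) (hq : 0 < q) (n : ℕ) (hn : 0 < n) :
    0 < (pw D p q n).2 := by
  obtain ⟨m, rfl⟩ : ∃ m, n = m + 1 := ⟨n - 1, by omega⟩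
  simp only [pw]
  have := pw_growth (D := D) (q := q) hp m
  have h : 0 < q * (pw D p q m).1 := Nat.mul_pos hq (by omega)
  omega

theorem alg {u v w c X Y P Q z0 z1 z2 s0 s1 s2 : ℤ} (hX : X ^ 2 = u * v * Y ^ 2 + 1)
    (hP : P ^ 2 = u * v * Q ^ 2 + 1) (hu : 0 < u) (hQ : Q ≠ 0) (hP0 : P ≠ 0)
    (hs0 : s0 = X + u * Y) (hs1 : s1 = (P * X + u * v * Q * Y) + u * (Q * X + P * Y))
    (hs2 : s2 = 2 * P * s1 - s0) (hc : c ≠ 0)
    (h0 : u * z0 ^ 2 = w * s0 ^ 2 + c) (h1 : u * z1 ^ 2 = w * s1 ^ 2 + c)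
    (h2 : u * z2 ^ 2 = w * s2 ^ 2 + c) (hz : z2 = 2 * P * z1 - z0) :
    w * (u - v) = v * c := by
  have E3 : u * z0 * z1 = w * s0 * s1 + P * c := by
    have h : 4 * P * (u * z0 * z1 - w * s0 * s1 - P * c) = 0 := by
      rw [hz, hs2] at h2
      linear_combination 4 * P ^ 2 * h1 + h0 - h2
    have h4 : (4 * P : ℤ) ≠ 0 := mul_ne_zero (by norm_num) hP0
    have := (mul_eq_zero.1 h).resolve_left h4
    linarith
  have E4 : w * (s0 ^ 2 - 2 * P * s0 * s1 + s1 ^ 2) = (P ^ 2 - 1) * c := by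
    have h : c * (w * (s0 ^ 2 - 2 * P * s0 * s1 + s1 ^ 2) - (P ^ 2 - 1) * c) = 0 := by
      linear_combination (-(w * s1 ^ 2 + c)) * h0 - (u * z0 ^ 2) * h1 +
        (u * z0 * z1 + w * s0 * s1 + P * c) * E3
    have := (mul_eq_zero.1 h).resolve_left hc
    linarith
  have E5 : s0 ^ 2 - 2 * P * s0 * s1 + s1 ^ 2 = u * Q ^ 2 * (u - v) := by
    rw [hs1, hs0]
    linear_combination (-(X + u * Y) ^ 2) * hP + (u * Q ^ 2 * (u - v)) * hX
  rw [E5] at E4
  have h : (u * Q ^ 2) * (w * (u - v) - v * c) = 0 := by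
    linear_combination E4 + c * hP
  have h5 : u * Q ^ 2 ≠ 0 := mul_ne_zero hu.ne' (pow_ne_zero _ hQ)
  have := (mul_eq_zero.1 h).resolve_left h5
  linarith

theorem est1 {a b c z s : ℝ} (ha : 0 ≤ a) (hb : 1 ≤ b) (hz : 0 ≤ z) (hs : 0 < s)
    (h : a ^ 2 * z ^ 2 = b ^ 2 * s ^ 2 + c) : |a * z - b * s| ≤ |c| / s := by
  rw [le_div_iff₀ hs]
  have h1 : (a * z - b * s) * (a * z + b * s) = c := by linear_combination h
  have h2 : s ≤ a * z + b * s := by nlinarith [mul_nonneg ha hz]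
  have h3 : 0 ≤ a * z + b * s := by linarith
  calc |a * z - b * s| * s ≤ |a * z - b * s| * (a * z + b * s) :=
        mul_le_mul_of_nonneg_left h2 (abs_nonneg _)
    _ = |a * z - b * s| * |a * z + b * s| := by rw [abs_of_nonneg h3]
    _ = |c| := by rw [← abs_mul, h1]

theorem est {u w c P z0 z1 z2 s0 s1 s2 : ℤ} (hu : 0 < u) (hw : 0 < w) (hP : 0 < P)
    (hz0 : 0 ≤ z0) (hz1 : 0 ≤ z1) (hz2 : 0 ≤ z2) (hs0 : 4 * |c| < s0) (hs01 : P * s0 ≤ s1)
    (hs02 : s0 ≤ s2) (hs2 : s2 = 2 * P * s1 - s0)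
    (h0 : u * z0 ^ 2 = w * s0 ^ 2 + c) (h1 : u * z1 ^ 2 = w * s1 ^ 2 + c)
    (h2 : u * z2 ^ 2 = w * s2 ^ 2 + c) : z2 = 2 * P * z1 - z0 := by
  have s0pos : 0 < s0 := lt_of_le_of_lt (by positivity) hs0
  have s1pos : 0 < s1 := lt_of_lt_of_le (mul_pos hP s0pos) hs01
  have s2pos : 0 < s2 := lt_of_lt_of_le s0pos hs02
  set a : ℝ := Real.sqrt u with ha
  set b : ℝ := Real.sqrt w with hb
  have ha2 : a ^ 2 = (u : ℝ) := Real.sq_sqrt (by exact_mod_cast hu.le)
  have hb2 : b ^ 2 = (w : ℝ) := Real.sq_sqrt (by exact_mod_cast hw.le)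
  have ha1 : 1 ≤ a := by
    rw [ha, show (1:ℝ) = Real.sqrt 1 by simp]
    exact Real.sqrt_le_sqrt (by exact_mod_cast hu)
  have hb1 : 1 ≤ b := by
    rw [hb, show (1:ℝ) = Real.sqrt 1 by simp]
    exact Real.sqrt_le_sqrt (by exact_mod_cast hw)
  have e0 := est1 (a := a) (b := b) (c := c) (z := z0) (s := s0) (by linarith) hb1
    (by exact_mod_cast hz0) (by exact_mod_cast s0pos) (by rw [ha2, hb2]; exact_mod_cast h0)
  have e1 := est1 (a := a) (b := b) (c := c) (z := z1) (s := s1) (by linarith) hb1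
    (by exact_mod_cast hz1) (by exact_mod_cast s1pos) (by rw [ha2, hb2]; exact_mod_cast h1)
  have e2 := est1 (a := a) (b := b) (c := c) (z := z2) (s := s2) (by linarith) hb1
    (by exact_mod_cast hz2) (by exact_mod_cast s2pos) (by rw [ha2, hb2]; exact_mod_cast h2)
  have s0R : (0:ℝ) < s0 := by exact_mod_cast s0pos
  have s1R : (0:ℝ) < s1 := by exact_mod_cast s1pos
  have s2R : (0:ℝ) < s2 := by exact_mod_cast s2pos
  have PR : (0:ℝ) < P := by exact_mod_cast hP
  have hcR : 0 ≤ |(c:ℝ)| := abs_nonneg _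
  have f2 : |(c:ℝ)| / s2 ≤ |(c:ℝ)| / s0 :=
    div_le_div_of_nonneg_left hcR s0R (by exact_mod_cast hs02)
  have f1 : (P:ℝ) * (|(c:ℝ)| / s1) ≤ |(c:ℝ)| / s0 := by
    rw [← mul_div_assoc, div_le_div_iff₀ s1R s0R]
    have : (P:ℝ) * s0 ≤ s1 := by exact_mod_cast hs01
    nlinarith
  have hs2R : (s2:ℝ) = 2 * P * s1 - s0 := by exact_mod_cast hs2
  have f0 : 4 * (|(c:ℝ)| / s0) < 1 := by
    rw [← mul_div_assoc, div_lt_one s0R]
    exact_mod_cast hs0
  have g1 : |a * ((z2:ℝ) - (2 * P * z1 - z0))| < 1 := by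
    have : a * ((z2:ℝ) - (2 * P * z1 - z0)) =
        (a * z2 - b * s2) + (a * z0 - b * s0) - 2 * (P * (a * z1 - b * s1)) := by
      rw [hs2R]; ring
    rw [this]
    have g2 : |(a * z2 - b * s2) + (a * z0 - b * s0) - 2 * (P * (a * z1 - b * s1))| ≤
        |a * z2 - b * s2| + |a * z0 - b * s0| + 2 * (P * |a * z1 - b * s1|) := by
      have h3 : |2 * ((P:ℝ) * (a * z1 - b * s1))| = 2 * (P * |a * z1 - b * s1|) := by
        rw [abs_mul, abs_mul, abs_of_pos PR]; simp
      rw [← h3]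
      exact (abs_sub _ _).trans (by gcongr; exact abs_add_le _ _)
    have g3 : (P:ℝ) * |a * z1 - b * s1| ≤ P * (|(c:ℝ)| / s1) :=
      mul_le_mul_of_nonneg_left e1 PR.le
    linarith
  have g4 : |((z2 - (2 * P * z1 - z0) : ℤ) : ℝ)| < 1 := by
    rw [abs_mul, abs_of_pos (by linarith : 0 < a)] at g1
    push_cast
    nlinarith [abs_nonneg ((z2:ℝ) - (2 * P * z1 - z0))]
  have g5 : |z2 - (2 * P * z1 - z0)| < 1 := by exact_mod_cast g4
  have := Int.abs_lt_one_iff.1 g5
  linarith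

/-- The sequence of numbers `x` with `u x + 1` and `v x + 1` both squares. -/
def xs (u v p q n : ℕ) : ℕ :=
  (u + v) * (pw (u * v) p q n).2 ^ 2 + 2 * (pw (u * v) p q n).1 * (pw (u * v) p q n).2

theorem xs_left {u v p q : ℕ} (h : p ^ 2 = u * v * q ^ 2 + 1) (n : ℕ) :
    u * xs u v p q n + 1 = ((pw (u * v) p q n).1 + u * (pw (u * v) p q n).2) ^ 2 := by
  have := pw_norm h n
  unfold xs
  zify at this ⊢
  linear_combination -this

theorem xs_right {u v p q : ℕ} (h : p ^ 2 = u * v * q ^ 2 + 1) (n : ℕ) :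
    v * xs u v p q n + 1 = ((pw (u * v) p q n).1 + v * (pw (u * v) p q n).2) ^ 2 := by
  have := pw_norm h n
  unfold xs
  zify at this ⊢
  linear_combination -this

theorem xs_pos {u v p q : ℕ} (hu : 0 < u) (hp : 2 ≤ p) (hq : 0 < q) (n : ℕ) (hn : 0 < n) :
    0 < xs u v p q n := by
  have h := pw_snd_pos (D := u * v) hp hq n hn
  unfold xs
  positivity

theorem aux {P S0 S1 : ℤ} (hP : 2 ≤ P) (h0 : 0 ≤ S0) (h : P * S0 ≤ S1) : S0 ≤ 2 * P * S1 - S0 := by
  have h1 : 2 * S0 ≤ P * S0 := mul_le_mul_of_nonneg_right hP h0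
  have h2 : 0 ≤ S1 := by linarith
  have h3 : 2 * S1 ≤ P * S1 := mul_le_mul_of_nonneg_right hP h2
  have h4 : 2 * P * S1 = 2 * (P * S1) := by ring
  linarith

theorem noAP {u v w p q : ℕ} {e : Bool} (hu : 0 < u) (hw : 0 < w)
    (hpq : p ^ 2 = u * v * q ^ 2 + 1) (hp : 2 ≤ p) (hq : 0 < q)
    (he : e = true → w ≠ u ∧ w ≠ v) {n d : ℕ} (hd : 0 < d) (hn : 4 * (u + w) ≤ n)
    (h0 : IsSquare (w * xs u v p q n + e.toNat))
    (h1 : IsSquare (w * xs u v p q (n + d) + e.toNat))
    (h2 : IsSquare (w * xs u v p q (n + d + d) + e.toNat)) : False := by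
  obtain ⟨z0, hz0⟩ := h0
  obtain ⟨z1, hz1⟩ := h1
  obtain ⟨z2, hz2⟩ := h2
  have k0 := xs_left hpq n
  have k1 := xs_left hpq (n + d)
  have k2 := xs_left hpq (n + d + d)
  have hX := pw_norm hpq n
  have hPn := pw_norm hpq d
  have hXn := pw_growth (D := u * v) (q := q) hp n
  have hPd := pw_growth (D := u * v) (q := q) hp d
  have hQd := pw_snd_pos (D := u * v) hp hq d hd
  have a1 := pw_add (D := u * v) (p := p) (q := q) n d
  have a2 := pw_add (D := u * v) (p := p) (q := q) (n + d) d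
  rw [a2.1, a2.2, a1.1, a1.2] at k2
  rw [a1.1, a1.2] at k1
  generalize hXX : (pw (u * v) p q n).1 = X at *
  generalize hYY : (pw (u * v) p q n).2 = Y at *
  generalize hPP : (pw (u * v) p q d).1 = P at *
  generalize hQQ : (pw (u * v) p q d).2 = Q at *
  generalize xs u v p q n = x0 at *
  generalize xs u v p q (n + d) = x1 at *
  generalize xs u v p q (n + d + d) = x2 at *
  obtain ⟨c, hc⟩ : ∃ c : ℤ, c = (e.toNat : ℤ) * u - w := ⟨_, rfl⟩
  have hcabs : |c| ≤ u + w := by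
    rw [hc]
    cases e
    · simp
    · simp only [Bool.toNat_true, Nat.cast_one, one_mul]
      rw [abs_le]; constructor <;> omega
  have hc0 : c ≠ 0 := by
    rw [hc]
    cases e
    · simp; omega
    · simp only [Bool.toNat_true, Nat.cast_one, one_mul]
      have := (he rfl).1
      omega
  zify at hz0 hz1 hz2 k0 k1 k2 hX hPn
  have e0 : (u:ℤ) * (z0:ℤ) ^ 2 = w * ((X:ℤ) + u * Y) ^ 2 + c := by
    rw [hc]; linear_combination (-(u:ℤ)) * hz0 + (w:ℤ) * k0
  have e1 : (u:ℤ) * (z1:ℤ) ^ 2 = w * (((P:ℤ) * X + u * v * Q * Y) + u * (Q * X + P * Y)) ^ 2 + c := by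
    rw [hc]; linear_combination (-(u:ℤ)) * hz1 + (w:ℤ) * k1
  have e2 : (u:ℤ) * (z2:ℤ) ^ 2 =
      w * (2 * P * (((P:ℤ) * X + u * v * Q * Y) + u * (Q * X + P * Y)) - ((X:ℤ) + u * Y)) ^ 2 + c := by
    have k2' : (2 * P * (((P:ℤ) * X + u * v * Q * Y) + u * (Q * X + P * Y)) - ((X:ℤ) + u * Y)) =
        P * (P * X + u * v * Q * Y) + u * v * Q * (Q * X + P * Y) +
          u * (Q * (P * X + u * v * Q * Y) + P * (Q * X + P * Y)) := by
      linear_combination ((X:ℤ) + u * Y) * hPn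
    rw [k2', hc]; linear_combination (-(u:ℤ)) * hz2 + (w:ℤ) * k2
  have s01 : (P:ℤ) * (X + u * Y) ≤ (P * X + u * v * Q * Y) + u * (Q * X + P * Y) := by
    have : (0:ℤ) ≤ u * v * Q * Y + u * (Q * X) := by positivity
    linarith
  have hP2 : (2:ℤ) ≤ P := by exact_mod_cast (by omega : 2 ≤ P)
  have hs0pos : (0:ℤ) ≤ X + u * Y := by positivity
  have hz := est (u := u) (w := w) (c := c) (P := P) (z0 := z0) (z1 := z1) (z2 := z2)
    (s0 := X + u * Y) (s1 := (P * X + u * v * Q * Y) + u * (Q * X + P * Y))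
    (s2 := 2 * P * ((P * X + u * v * Q * Y) + u * (Q * X + P * Y)) - (X + u * Y))
    (by exact_mod_cast hu) (by exact_mod_cast hw) (by linarith) (by positivity) (by positivity)
    (by positivity)
    (by
      have h5 : ((n:ℤ) + 1) ≤ X := by exact_mod_cast hXn
      have h6 : (4:ℤ) * (u + w) ≤ n := by exact_mod_cast hn
      have h7 : (0:ℤ) ≤ u * Y := by positivity
      linarith)
    s01 (aux hP2 hs0pos s01) rfl e0 e1 e2
  have hfin := alg (u := u) (v := v) (w := w) (c := c) (X := X) (Y := Y) (P := P) (Q := Q)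
    (z0 := z0) (z1 := z1) (z2 := z2) hX hPn (by exact_mod_cast hu) (by omega) (by omega)
    rfl rfl rfl hc0 e0 e1 e2 hz
  rw [hc] at hfin
  have h8 : (u:ℤ) * (w - e.toNat * v) = 0 := by linear_combination hfin
  have h9 : (w:ℤ) - e.toNat * v = 0 := (mul_eq_zero.1 h8).resolve_left (by omega)
  cases e
  · simp at h9; omega
  · have := (he rfl).2
    simp at h9; omega

/-- `x` is a good new label: for `w ∈ W`, the number `w x` is never a square and `w x + 1` is a
square at most for `w = u, v`. -/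
def Nice (W : Finset ℕ) (u v x : ℕ) : Prop :=
  (∀ w ∈ W, ¬ IsSquare (w * x)) ∧ ∀ w ∈ W, w ≠ u → w ≠ v → ¬ IsSquare (w * x + 1)

theorem exists_nice (W : Finset ℕ) (hW : ∀ w ∈ W, 0 < w) {u v p q : ℕ} (hu : u ∈ W)
    (hpq : p ^ 2 = u * v * q ^ 2 + 1) (hp : 2 ≤ p) (hq : 0 < q) (m B : ℕ) :
    ∃ n : ℕ, B < n ∧ ∀ i < m, Nice W u v (xs u v p q (n + i)) := by
  have hu0 := hW u hu
  by_contra hcon
  push Not at hcon
  set N : ℕ := 4 * (u + ∑ w ∈ W, w) + 1 + B with hN
  have hbad : ∀ n : ℕ, ∃ c : (W × Bool) × Fin m, (c.1.2 = true → c.1.1.1 ≠ u ∧ c.1.1.1 ≠ v) ∧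
      IsSquare (c.1.1.1 * xs u v p q (n + N + c.2.1) + c.1.2.toNat) := by
    intro n
    obtain ⟨i, hi, hx⟩ := hcon (n + N) (by omega)
    by_cases h3 : ∀ w ∈ W, ¬ IsSquare (w * xs u v p q (n + N + i))
    · have h4 : ¬ ∀ w ∈ W, w ≠ u → w ≠ v → ¬ IsSquare (w * xs u v p q (n + N + i) + 1) :=
        fun h => hx ⟨h3, h⟩
      push Not at h4
      obtain ⟨w, hw, hwu, hwv, hsq⟩ := h4
      exact ⟨((⟨w, hw⟩, true), ⟨i, hi⟩), fun _ => ⟨hwu, hwv⟩, by simpa using hsq⟩
    · push Not at h3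
      obtain ⟨w, hw, hsq⟩ := h3
      exact ⟨((⟨w, hw⟩, false), ⟨i, hi⟩), fun h => by simp at h, by simpa using hsq⟩
  choose C hC1 hC2 using hbad
  obtain ⟨d, hd, b, c, hmono⟩ := Combinatorics.exists_mono_homothetic_copy
    (M := ℕ) (κ := (W × Bool) × Fin m) {0, 1, 2} C
  have m0 := hmono 0 (by simp)
  have m1 := hmono 1 (by simp)
  have m2 := hmono 2 (by simp)
  have b0 := hC2 (d • 0 + b)
  have b1 := hC2 (d • 1 + b)
  have b2 := hC2 (d • 2 + b)
  have bc := hC1 (d • 0 + b)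
  rw [m0] at b0 bc
  rw [m1] at b1
  rw [m2] at b2
  have hwle : c.1.1.1 ≤ ∑ w ∈ W, w :=
    Finset.single_le_sum (f := fun w => w) (fun _ _ => Nat.zero_le _) c.1.1.2
  refine noAP (n := b + N + c.2.1) (d := d) hu0 (hW _ c.1.1.2) hpq hp hq bc hd
    (by omega) ?_ ?_ ?_
  · simpa using b0
  · have : b + N + c.2.1 + d = d • 1 + b + N + c.2.1 := by simp; ring
    rw [this]; exact b1
  · have : b + N + c.2.1 + d + d = d • 2 + b + N + c.2.1 := by simp; ring
    rw [this]; exact b2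

/-- The extension lemma: a new label adjacent exactly to `u` and `v`. -/
theorem extend (W : Finset ℕ) (hW : ∀ w ∈ W, 0 < w) {u v : ℕ} (hu : u ∈ W) (hv : v ∈ W)
    (huv : ¬ IsSquare (u * v)) :
    ∃ x : ℕ, 0 < x ∧ IsSquare (u * x + 1) ∧ IsSquare (v * x + 1) ∧ (∀ w ∈ W, ¬ IsSquare (w * x)) ∧
      ∀ w ∈ W, w ≠ u → w ≠ v → ¬ IsSquare (w * x + 1) := by
  have hu0 := hW u hu
  have hv0 := hW v hv
  obtain ⟨p, q, hpq, hp, hq⟩ : ∃ p q : ℕ, p ^ 2 = u * v * q ^ 2 + 1 ∧ 2 ≤ p ∧ 0 < q := by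
    have h1 : ¬ IsSquare ((u * v : ℕ) : ℤ) := by rwa [Int.isSquare_natCast_iff]
    obtain ⟨x, y, hxy, hy⟩ := Pell.exists_of_not_isSquare
      (by exact_mod_cast Nat.mul_pos hu0 hv0 : (0:ℤ) < ((u * v : ℕ) : ℤ)) h1
    have hq : 0 < y.natAbs := Int.natAbs_pos.2 hy
    have h2 : x.natAbs ^ 2 = u * v * y.natAbs ^ 2 + 1 := by
      zify
      rw [sq_abs, sq_abs]
      push_cast at hxy
      linarith
    refine ⟨x.natAbs, y.natAbs, h2, ?_, hq⟩
    have h3 : 0 < u * v * y.natAbs ^ 2 := by positivity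
    by_contra h4
    have h5 : x.natAbs ^ 2 ≤ 1 ^ 2 := Nat.pow_le_pow_left (by omega) 2
    omega
  obtain ⟨n, hn, h1'⟩ := exists_nice W hW hu hpq hp hq 1 0
  have h1 : Nice W u v (xs u v p q n) := h1' 0 Nat.one_pos
  exact ⟨_, xs_pos hu0 hp hq n hn, ⟨_, by rw [xs_left hpq, sq]⟩, ⟨_, by rw [xs_right hpq, sq]⟩,
    h1.1, h1.2⟩

/-- `x_n x_{n+j} + Y_j²` is the square of this number. -/
def mid (u v p q n j : ℕ) : ℕ :=
  (u + v) * (pw (u * v) p q n).2 * (pw (u * v) p q (n + j)).2 +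
    (pw (u * v) p q n).1 * (pw (u * v) p q (n + j)).2 +
    (pw (u * v) p q (n + j)).1 * (pw (u * v) p q n).2

theorem xs_mul {u v p q : ℕ} (h : p ^ 2 = u * v * q ^ 2 + 1) (n j : ℕ) :
    xs u v p q n * xs u v p q (n + j) + (pw (u * v) p q j).2 ^ 2 = mid u v p q n j ^ 2 := by
  have hX := pw_norm h n
  have ha := pw_add (D := u * v) (p := p) (q := q) n j
  unfold xs mid
  rw [ha.1, ha.2]
  generalize (pw (u * v) p q n).1 = X at *
  generalize (pw (u * v) p q n).2 = Y at *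
  generalize (pw (u * v) p q j).1 = P at *
  generalize (pw (u * v) p q j).2 = Q at *
  zify at hX ⊢
  linear_combination (-((Q:ℤ) ^ 2 * ((X:ℤ) ^ 2 - u * v * Y ^ 2 + 1))) * hX

theorem mid_large {u v p q : ℕ} (hp : 2 ≤ p) {n j : ℕ} (hn : (pw (u * v) p q j).2 < n)
    (h0 : 0 < (pw (u * v) p q j).2) : (pw (u * v) p q j).2 ^ 2 < mid u v p q n j := by
  have ha := (pw_add (D := u * v) (p := p) (q := q) n j).2
  have hXn := pw_growth (D := u * v) (q := q) hp n
  unfold mid
  rw [ha]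
  generalize (pw (u * v) p q n).1 = X at *
  generalize (pw (u * v) p q n).2 = Y at *
  generalize (pw (u * v) p q j).1 = P at *
  generalize (pw (u * v) p q j).2 = Q at *
  have h1 : Q * (Q + 1) ≤ Q * X := Nat.mul_le_mul_left _ (by omega)
  have h2 : 1 * (Q * X) ≤ X * (Q * X) := Nat.mul_le_mul_right _ (by omega)
  have h3 : Q ^ 2 < X * (Q * X) := by nlinarith
  have h4 : X * (Q * X) ≤ X * (Q * X + P * Y) := Nat.mul_le_mul_left _ (by omega)
  omega

theorem not_isSquare_of {n : ℕ} (m : ℕ) (h1 : m * m < n) (h2 : n < (m + 1) * (m + 1)) :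
    ¬ IsSquare n := by
  rintro ⟨k, rfl⟩
  rcases Nat.lt_or_ge m k with h | h
  · have := Nat.mul_le_mul h h
    simp only [Nat.succ_eq_add_one] at this
    omega
  · have := Nat.mul_le_mul h h
    omega

theorem nonsq {a M Q e : ℕ} (h : a + Q ^ 2 = M ^ 2) (hQ : Q ^ 2 < M) (he : e < Q ^ 2) :
    ¬ IsSquare (a + e) := by
  obtain ⟨k, rfl⟩ : ∃ k, M = k + 1 := ⟨M - 1, by omega⟩
  have h1 : (k + 1) ^ 2 = k * k + 2 * k + 1 := by ring
  have h2 : (k + 1) * (k + 1) = k * k + 2 * k + 1 := by ring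
  apply not_isSquare_of k
  · omega
  · rw [h2]; omega

theorem pw_snd_ge {D p : ℕ} (hp : 2 ≤ p) (t : ℕ) : t ≤ (pw D p 1 t).2 := by
  cases t with
  | zero => simp
  | succ t =>
    have := pw_growth (D := D) (q := 1) hp t
    simp only [pw]
    omega

/-- The second extension lemma: `m` new labels in a path, all adjacent to the two ends `u`, `v`
of an edge and to nothing else. -/
theorem extend3 (W : Finset ℕ) (hW : ∀ w ∈ W, 0 < w) {u v : ℕ} (hu : u ∈ W) (hv : v ∈ W)
    (huv : IsSquare (u * v + 1)) (m : ℕ) :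
    ∃ y : ℕ → ℕ, (∀ i < m, 0 < y i ∧ IsSquare (u * y i + 1) ∧ IsSquare (v * y i + 1) ∧
        Nice W u v (y i)) ∧
      ∀ i j, i < j → j < m → ¬ IsSquare (y i * y j) ∧ (IsSquare (y i * y j + 1) ↔ j = i + 1) := by
  have hu0 := hW u hu
  have hv0 := hW v hv
  obtain ⟨r, hr⟩ := huv
  have hpq : r ^ 2 = u * v * 1 ^ 2 + 1 := by rw [sq, ← hr]; ring
  have hr2 : 2 ≤ r := by
    have h3 : 0 < u * v := Nat.mul_pos hu0 hv0
    by_contra h4
    have h5 : r * r ≤ 1 * 1 := Nat.mul_le_mul (by omega) (by omega)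
    omega
  obtain ⟨n, hn, h1⟩ := exists_nice W hW hu hpq hr2 Nat.one_pos m
    (∑ t ∈ Finset.range m, (pw (u * v) r 1 t).2)
  refine ⟨fun i => xs u v r 1 (n + i), fun i hi => ⟨xs_pos hu0 hr2 Nat.one_pos (n + i) (by omega),
    ⟨_, by rw [xs_left hpq, sq]⟩, ⟨_, by rw [xs_right hpq, sq]⟩, h1 i hi⟩, ?_⟩
  intro i j hij hjm
  obtain ⟨t, rfl⟩ : ∃ t, j = i + t := ⟨j - i, by omega⟩
  have ht0 : 0 < t := by omega
  have hle : (pw (u * v) r 1 t).2 ≤ ∑ t ∈ Finset.range m, (pw (u * v) r 1 t).2 :=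
    Finset.single_le_sum (f := fun t => (pw (u * v) r 1 t).2) (fun _ _ => Nat.zero_le _)
      (Finset.mem_range.2 (by omega))
  have hm := xs_mul hpq (n + i) t
  have hge := pw_snd_ge (D := u * v) hr2 t
  have hl := mid_large (u := u) (v := v) (q := 1) hr2 (n := n + i) (j := t) (by omega) (by omega)
  rw [add_assoc n i t] at hm
  have hsq1 : 1 ≤ (pw (u * v) r 1 t).2 ^ 2 := Nat.one_le_pow _ _ (by omega)
  refine ⟨by simpa using nonsq hm hl (e := 0) (by omega), ?_⟩
  constructor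
  · intro h
    by_contra hne
    have h2 : 2 ^ 2 ≤ (pw (u * v) r 1 t).2 ^ 2 := Nat.pow_le_pow_left (by omega) 2
    exact nonsq hm hl (e := 1) (by omega) h
  · intro h
    have h2 : t = 1 := by omega
    subst h2
    have h3 : (pw (u * v) r 1 1).2 = 1 := by simp [pw]
    rw [h3] at hm
    exact ⟨_, by rw [← sq, ← hm]; ring⟩

theorem newprime (W : Finset ℕ) (hW : ∀ w ∈ W, 0 < w) :
    ∃ p : ℕ, 0 < p ∧ p ∉ W ∧ ∀ w ∈ W, ¬ IsSquare (w * p) := by
  obtain ⟨p, hp, hpp⟩ := Nat.exists_infinite_primes (∑ w ∈ W, w + 1)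
  have hlt : ∀ w ∈ W, w < p := fun w hw => by
    have := Finset.single_le_sum (f := fun w => w) (fun _ _ => Nat.zero_le _) hw
    omega
  refine ⟨p, hpp.pos, fun h => (hlt p h).false, fun w hw ⟨m, hm⟩ => ?_⟩
  have h1 : p ∣ m := by
    have : p ∣ m * m := ⟨w, by rw [← hm]; ring⟩
    rcases hpp.dvd_mul.1 this with h | h <;> exact h
  obtain ⟨k, rfl⟩ := h1
  have h2 : w = p * (k * k) := by
    apply Nat.eq_of_mul_eq_mul_right hpp.pos
    rw [hm]; ring
  have h3 : 0 < k * k := by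
    rcases Nat.eq_zero_or_pos (k * k) with h | h
    · rw [h] at h2; have := hW w hw; omega
    · exact h
  have h4 := hlt w hw
  have h5 : p * 1 ≤ p * (k * k) := Nat.mul_le_mul_left _ h3
  omega

theorem not_isSquare_of_succ {n : ℕ} (hn : 0 < n) (h : IsSquare (n + 1)) : ¬ IsSquare n := by
  rintro ⟨k, hk⟩
  obtain ⟨m, hm⟩ := h
  have hk0 : 0 < k := by
    rcases Nat.eq_zero_or_pos k with h | h
    · rw [h] at hk; omega
    · exact h
  have h1 : k < m := by
    by_contra h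
    have := Nat.mul_le_mul (not_lt.1 h) (not_lt.1 h)
    omega
  have h2 := Nat.mul_le_mul h1 h1
  have h3 : (k + 1) * (k + 1) = k * k + 2 * k + 1 := by ring
  simp only [Nat.succ_eq_add_one] at h2
  omega

/-- `f` realises the graph induced by `G` on `S`; if `σ` holds then moreover no product of two
labels is a square. -/
def Rep {V : Type} (σ : Prop) (G : SimpleGraph V) (S : Set V) (f : V → ℕ) : Prop :=
  (∀ a ∈ S, 0 < f a) ∧ ∀ a ∈ S, ∀ b ∈ S, a ≠ b →
    f a ≠ f b ∧ (σ → ¬ IsSquare (f a * f b)) ∧ (G.Adj a b ↔ IsSquare (f a * f b + 1))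

theorem rep_insert {V : Type} [DecidableEq V] {σ : Prop} (G : SimpleGraph V) (S : Finset V)
    (f : V → ℕ) (hf : Rep σ G S f) (v : V) (hv : v ∉ S) (x : ℕ) (hx : 0 < x)
    (hxS : ∀ w ∈ S, ¬ IsSquare (f w * x) ∧ (G.Adj v w ↔ IsSquare (f w * x + 1))) :
    Rep σ G (insert v S : Finset V) (Function.update f v x) := by
  have hne : ∀ w ∈ S, f w ≠ x := fun w hw e => (hxS w hw).1 ⟨x, by rw [e]⟩
  refine ⟨?_, ?_⟩
  · intro a ha
    rcases Finset.mem_insert.1 (Finset.mem_coe.1 ha) with h | h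
    · rw [h]; simpa using hx
    · have ha' : a ≠ v := fun e => hv (e ▸ h)
      rw [Function.update_of_ne ha']
      exact hf.1 a h
  · intro a ha b hb hab
    rcases Finset.mem_insert.1 (Finset.mem_coe.1 ha) with h | h
    · rcases Finset.mem_insert.1 (Finset.mem_coe.1 hb) with h' | h'
      · exact absurd (h.trans h'.symm) hab
      · have hb' : b ≠ v := fun e => hv (e ▸ h')
        rw [h, Function.update_self, Function.update_of_ne hb', mul_comm x]
        exact ⟨(hne b h').symm, fun _ => (hxS b h').1, (hxS b h').2⟩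
    · have ha' : a ≠ v := fun e => hv (e ▸ h)
      rcases Finset.mem_insert.1 (Finset.mem_coe.1 hb) with h' | h'
      · rw [h', Function.update_self, Function.update_of_ne ha', G.adj_comm]
        exact ⟨hne a h, fun _ => (hxS a h).1, (hxS a h).2⟩
      · have hb' : b ≠ v := fun e => hv (e ▸ h')
        rw [Function.update_of_ne ha', Function.update_of_ne hb']
        exact hf.2 a h b h' hab

theorem Rep.inj {V : Type} {σ : Prop} {G : SimpleGraph V} {S : Set V} {f : V → ℕ}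
    (hf : Rep σ G S f) : ∀ a ∈ S, ∀ b ∈ S, f a = f b → a = b := by
  intro a ha b hb hab
  by_contra hne
  exact (hf.2 a ha b hb hne).1 hab

theorem Rep.nonsq {V : Type} {σ : Prop} {G : SimpleGraph V} {S : Set V} {f : V → ℕ}
    (hf : Rep σ G S f) {a b : V} (ha : a ∈ S) (hb : b ∈ S) (hab : a ≠ b)
    (h : σ ∨ G.Adj a b) : ¬ IsSquare (f a * f b) := by
  rcases h with h | h
  · exact (hf.2 a ha b hb hab).2.1 h
  · exact not_isSquare_of_succ (Nat.mul_pos (hf.1 a ha) (hf.1 b hb))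
      ((hf.2 a ha b hb hab).2.2.1 h)

theorem step {V : Type} [DecidableEq V] {σ : Prop} (G : SimpleGraph V) [DecidableRel G.Adj]
    (S : Finset V) (f : V → ℕ) (hf : Rep σ G S f) (v : V) (hv : v ∉ S)
    (hdeg : (S.filter (G.Adj v)).card ≤ 2)
    (hσ : ∀ a ∈ S, ∀ b ∈ S, G.Adj v a → G.Adj v b → a ≠ b → σ ∨ G.Adj a b) :
    ∃ x : ℕ, Rep σ G (insert v S : Finset V) (Function.update f v x) := by
  -- reduce to a number `x`
  suffices h : ∃ x : ℕ, 0 < x ∧ ∀ w ∈ S, ¬ IsSquare (f w * x) ∧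
      (G.Adj v w ↔ IsSquare (f w * x + 1)) by
    obtain ⟨x, hx, hxS⟩ := h
    exact ⟨x, rep_insert G S f hf v hv x hx hxS⟩
  -- reduce to two labels `u`, `u'`
  suffices h : ∃ (W : Finset ℕ) (u u' : ℕ), (∀ w ∈ W, 0 < w) ∧ (∀ w ∈ S, f w ∈ W) ∧ u ∈ W ∧
      u' ∈ W ∧ ¬ IsSquare (u * u') ∧ ∀ w ∈ S, (f w = u ∨ f w = u') ↔ G.Adj v w by
    obtain ⟨W, u, u', hW, hSW, hu, hu', huu, hN⟩ := h
    obtain ⟨x, hx, h1, h2, h3, h4⟩ := extend W hW hu hu' huu
    refine ⟨x, hx, fun w hw => ⟨h3 _ (hSW w hw), ?_⟩⟩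
    rw [← hN w hw]
    constructor
    · rintro (h | h)
      · rw [h]; exact h1
      · rw [h]; exact h2
    · intro h
      by_contra h5
      push Not at h5
      exact h4 _ (hSW w hw) h5.1 h5.2 h
  have hinj : ∀ a ∈ S, ∀ b ∈ S, f a = f b → a = b := hf.inj
  have hW0 : ∀ w ∈ S.image f, 0 < w := by
    intro w hw
    obtain ⟨a, ha, rfl⟩ := Finset.mem_image.1 hw
    exact hf.1 a ha
  rcases Nat.lt_or_ge (S.filter (G.Adj v)).card 1 with h0 | h1
  · -- no neighbour
    have h0' : S.filter (G.Adj v) = ∅ := Finset.card_eq_zero.1 (by omega)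
    obtain ⟨p, hp0, hpW, hpsq⟩ := newprime _ hW0
    have hW1 : ∀ w ∈ insert p (S.image f), 0 < w := by
      intro w hw
      rcases Finset.mem_insert.1 hw with rfl | hw
      · exact hp0
      · exact hW0 w hw
    obtain ⟨r, hr0, hrW, hrsq⟩ := newprime _ hW1
    refine ⟨insert r (insert p (S.image f)), p, r, ?_, ?_, by simp, by simp,
      hrsq p (by simp), ?_⟩
    · intro w hw
      rcases Finset.mem_insert.1 hw with rfl | hw
      · exact hr0
      · exact hW1 w hw
    · intro w hw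
      exact Finset.mem_insert_of_mem (Finset.mem_insert_of_mem (Finset.mem_image_of_mem f hw))
    · intro w hw
      constructor
      · rintro (h | h)
        · exact absurd (h ▸ Finset.mem_image_of_mem f hw) hpW
        · exact absurd (h ▸ Finset.mem_insert_of_mem (Finset.mem_image_of_mem f hw)) hrW
      · intro h
        have : w ∈ S.filter (G.Adj v) := Finset.mem_filter.2 ⟨hw, h⟩
        rw [h0'] at this
        simp at this
  rcases Nat.lt_or_ge (S.filter (G.Adj v)).card 2 with h2 | h2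
  · -- one neighbour
    obtain ⟨a, ha⟩ := Finset.card_eq_one.1 (by omega : (S.filter (G.Adj v)).card = 1)
    have haS : a ∈ S.filter (G.Adj v) := by rw [ha]; simp
    have haS' := (Finset.mem_filter.1 haS).1
    obtain ⟨p, hp0, hpW, hpsq⟩ := newprime _ hW0
    refine ⟨insert p (S.image f), f a, p, ?_, ?_, ?_, by simp,
      hpsq _ (Finset.mem_image_of_mem f haS'), ?_⟩
    · intro w hw
      rcases Finset.mem_insert.1 hw with rfl | hw
      · exact hp0
      · exact hW0 w hw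
    · intro w hw
      exact Finset.mem_insert_of_mem (Finset.mem_image_of_mem f hw)
    · exact Finset.mem_insert_of_mem (Finset.mem_image_of_mem f haS')
    · intro w hw
      constructor
      · rintro (h | h)
        · rw [hinj w hw a haS' h]
          exact (Finset.mem_filter.1 haS).2
        · exact absurd (h ▸ Finset.mem_image_of_mem f hw) hpW
      · intro h
        have : w ∈ S.filter (G.Adj v) := Finset.mem_filter.2 ⟨hw, h⟩
        rw [ha, Finset.mem_singleton] at this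
        left; rw [this]
  · -- two neighbours
    obtain ⟨a, b, hab, hN⟩ := Finset.card_eq_two.1 (by omega : (S.filter (G.Adj v)).card = 2)
    have haS : a ∈ S.filter (G.Adj v) := by rw [hN]; simp
    have hbS : b ∈ S.filter (G.Adj v) := by rw [hN]; simp
    have haS' := (Finset.mem_filter.1 haS).1
    have hbS' := (Finset.mem_filter.1 hbS).1
    refine ⟨S.image f, f a, f b, hW0, fun w hw => Finset.mem_image_of_mem f hw,
      Finset.mem_image_of_mem f haS', Finset.mem_image_of_mem f hbS',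
      hf.nonsq haS' hbS' hab (hσ a haS' b hbS' (Finset.mem_filter.1 haS).2
        (Finset.mem_filter.1 hbS).2 hab), ?_⟩
    intro w hw
    constructor
    · rintro (h | h)
      · rw [hinj w hw a haS' h]
        exact (Finset.mem_filter.1 haS).2
      · rw [hinj w hw b hbS' h]
        exact (Finset.mem_filter.1 hbS).2
    · intro h
      have : w ∈ S.filter (G.Adj v) := Finset.mem_filter.2 ⟨hw, h⟩
      rw [hN, Finset.mem_insert, Finset.mem_singleton] at this
      rcases this with h | h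
      · left; rw [h]
      · right; rw [h]

theorem step3 {V : Type} [DecidableEq V] {σ : Prop} (G : SimpleGraph V) (S : Finset V)
    (f : V → ℕ) (hf : Rep σ G S f) (m : ℕ) (P : ℕ → V) (a b : V) (hP : ∀ i < m, P i ∉ S)
    (hinj : ∀ i < m, ∀ j < m, P i = P j → i = j) (ha : a ∈ S) (hb : b ∈ S) (hab : G.Adj a b)
    (hNS : ∀ i < m, ∀ w ∈ S, G.Adj (P i) w ↔ w = a ∨ w = b)
    (hNP : ∀ i < m, ∀ j < m, G.Adj (P i) (P j) ↔ j = i + 1 ∨ i = j + 1) :
    ∃ g : V → ℕ, Rep σ G (S ∪ (Finset.range m).image P : Finset V) g := by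
  classical
  have hW0 : ∀ w ∈ S.image f, 0 < w := by
    intro w hw
    obtain ⟨a, ha, rfl⟩ := Finset.mem_image.1 hw
    exact hf.1 a ha
  obtain ⟨y, hy, hyy⟩ := extend3 (S.image f) hW0
    (Finset.mem_image_of_mem f ha) (Finset.mem_image_of_mem f hb)
    ((hf.2 a ha b hb hab.ne).2.2.1 hab) m
  have key : ∀ i < m, ∀ w ∈ S, ¬ IsSquare (f w * y i) ∧
      (G.Adj (P i) w ↔ IsSquare (f w * y i + 1)) := by
    intro i hi w hw
    obtain ⟨-, hza, hzb, hz⟩ := hy i hi
    refine ⟨hz.1 _ (Finset.mem_image_of_mem f hw), ?_⟩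
    rw [hNS i hi w hw]
    constructor
    · rintro (h | h)
      · rw [h]; exact hza
      · rw [h]; exact hzb
    · intro h
      by_contra h5
      push Not at h5
      exact hz.2 _ (Finset.mem_image_of_mem f hw) (fun e => h5.1 (hf.inj w hw a ha e))
        (fun e => h5.2 (hf.inj w hw b hb e)) h
  let g : V → ℕ := fun w => if h : ∃ i, i < m ∧ P i = w then y h.choose else f w
  have gP : ∀ i < m, g (P i) = y i := by
    intro i hi
    have h : ∃ j, j < m ∧ P j = P i := ⟨i, hi, rfl⟩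
    have h1 : g (P i) = y h.choose := dif_pos h
    rw [h1, hinj _ h.choose_spec.1 i hi h.choose_spec.2]
  have gS : ∀ w ∈ S, g w = f w := by
    intro w hw
    have h : ¬ ∃ i, i < m ∧ P i = w := by
      rintro ⟨i, hi, rfl⟩
      exact hP i hi hw
    exact dif_neg h
  have hmem : ∀ w, w ∈ ((S ∪ (Finset.range m).image P : Finset V) : Set V) →
      w ∈ S ∨ ∃ i < m, w = P i := by
    intro w hw
    rcases Finset.mem_union.1 (Finset.mem_coe.1 hw) with h | h
    · exact Or.inl h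
    · obtain ⟨i, hi, rfl⟩ := Finset.mem_image.1 h
      exact Or.inr ⟨i, Finset.mem_range.1 hi, rfl⟩
  refine ⟨g, ?_, ?_⟩
  · intro w hw
    rcases hmem w hw with h | ⟨i, hi, rfl⟩
    · rw [gS w h]; exact hf.1 w h
    · rw [gP i hi]; exact (hy i hi).1
  · intro w hw w' hw' hne
    have hnsq : ∀ p q : ℕ, ¬ IsSquare (p * q) → p ≠ q := fun p q h e => h ⟨q, by rw [e]⟩
    rcases hmem w hw with h | ⟨i, hi, rfl⟩
    · rcases hmem w' hw' with h' | ⟨j, hj, rfl⟩
      · rw [gS w h, gS w' h']; exact hf.2 w h w' h' hne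
      · rw [gS w h, gP j hj, G.adj_comm]
        have := key j hj w h
        exact ⟨hnsq _ _ this.1, fun _ => this.1, this.2⟩
    · rcases hmem w' hw' with h' | ⟨j, hj, rfl⟩
      · rw [gS w' h', gP i hi, mul_comm (y i)]
        have := key i hi w' h'
        exact ⟨(hnsq _ _ this.1).symm, fun _ => this.1, this.2⟩
      · rw [gP i hi, gP j hj, hNP i hi j hj]
        have hij : i ≠ j := fun e => hne (by rw [e])
        rcases Nat.lt_or_ge i j with h | h
        · have := hyy i j h hj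
          refine ⟨hnsq _ _ this.1, fun _ => this.1, ?_⟩
          rw [this.2]
          omega
        · have := hyy j i (by omega) hi
          rw [mul_comm (y i)]
          refine ⟨(hnsq _ _ this.1).symm, fun _ => this.1, ?_⟩
          rw [this.2]
          omega

theorem peel {V : Type} [DecidableEq V] {σ : Prop} (G : SimpleGraph V) [DecidableRel G.Adj]
    (A : Finset V) (hA : ∃ f, Rep σ G A f)
    (h : ∀ S : Finset V, A ⊂ S → (∃ v ∈ S, v ∉ A ∧ (S.filter (G.Adj v)).card ≤ 2 ∧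
        ∀ a ∈ S, ∀ b ∈ S, G.Adj v a → G.Adj v b → a ≠ b → σ ∨ G.Adj a b) ∨
      ∃ (m : ℕ) (P : ℕ → V), ∃ a ∈ S, ∃ b ∈ S, 0 < m ∧ G.Adj a b ∧
        (∀ i < m, P i ∈ S ∧ P i ∉ A) ∧ (∀ i < m, ∀ j < m, P i = P j → i = j) ∧
        ∀ i < m, ∀ w ∈ S, G.Adj (P i) w ↔
          w = a ∨ w = b ∨ ∃ j < m, w = P j ∧ (j = i + 1 ∨ i = j + 1)) :
    ∀ n : ℕ, ∀ T : Finset V, A ⊆ T → T.card = n → ∃ g, Rep σ G T g := by
  intro n
  induction n using Nat.strong_induction_on with
  | _ n ih =>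
    intro T hAT hT
    rcases eq_or_ne A T with rfl | hne
    · exact hA
    have hss : A ⊂ T := Finset.ssubset_iff_subset_ne.2 ⟨hAT, hne⟩
    rcases h T hss with ⟨v, hvT, hvA, hdeg, hσ⟩ | ⟨m, P, a, ha, b, hb, hm, hab, hPT, hinj, hN⟩
    · obtain ⟨g, hg⟩ := ih (T.erase v).card (by rw [← hT]; exact Finset.card_erase_lt_of_mem hvT)
        (T.erase v) (fun a ha => Finset.mem_erase.2 ⟨fun e => hvA (e ▸ ha), hAT ha⟩) rfl
      have h1 : ((T.erase v).filter (G.Adj v)).card ≤ 2 :=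
        (Finset.card_le_card (Finset.filter_subset_filter _ (Finset.erase_subset v T))).trans hdeg
      obtain ⟨x, h2⟩ := step G (T.erase v) g hg v (Finset.notMem_erase v T) h1
        (fun a ha b hb => hσ a (Finset.mem_of_mem_erase ha) b (Finset.mem_of_mem_erase hb))
      rw [Finset.insert_erase hvT] at h2
      exact ⟨_, h2⟩
    · have hsub : (Finset.range m).image P ⊆ T := by
        intro w hw
        obtain ⟨i, hi, rfl⟩ := Finset.mem_image.1 hw
        exact (hPT i (Finset.mem_range.1 hi)).1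
      have hP0 : P 0 ∈ (Finset.range m).image P :=
        Finset.mem_image_of_mem P (Finset.mem_range.2 hm)
      have haP : a ∉ (Finset.range m).image P := by
        intro hw
        obtain ⟨i, hi, rfl⟩ := Finset.mem_image.1 hw
        exact G.irrefl ((hN i (Finset.mem_range.1 hi) (P i) ha).2 (Or.inl rfl))
      have hbP : b ∉ (Finset.range m).image P := by
        intro hw
        obtain ⟨i, hi, rfl⟩ := Finset.mem_image.1 hw
        exact G.irrefl ((hN i (Finset.mem_range.1 hi) (P i) hb).2 (Or.inr (Or.inl rfl)))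
      have hcard : (T \ (Finset.range m).image P).card < n := by
        rw [← hT]
        apply Finset.card_lt_card
        refine Finset.ssubset_iff_subset_ne.2 ⟨Finset.sdiff_subset, fun e => ?_⟩
        have h1 : P 0 ∈ T \ (Finset.range m).image P := by rw [e]; exact hsub hP0
        exact (Finset.mem_sdiff.1 h1).2 hP0
      obtain ⟨g, hg⟩ := ih _ hcard (T \ (Finset.range m).image P)
        (fun c hc => Finset.mem_sdiff.2 ⟨hAT hc, fun hw => by
          obtain ⟨i, hi, rfl⟩ := Finset.mem_image.1 hw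
          exact (hPT i (Finset.mem_range.1 hi)).2 hc⟩) rfl
      obtain ⟨g', hg'⟩ := step3 G (T \ (Finset.range m).image P) g hg m P a b
        (fun i hi hw => (Finset.mem_sdiff.1 hw).2
          (Finset.mem_image_of_mem P (Finset.mem_range.2 hi)))
        hinj (Finset.mem_sdiff.2 ⟨ha, haP⟩) (Finset.mem_sdiff.2 ⟨hb, hbP⟩) hab
        (fun i hi w hw => by
          have hw1 := Finset.mem_sdiff.1 hw
          rw [hN i hi w hw1.1]
          constructor
          · rintro (h | h | ⟨j, hj, rfl, -⟩)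
            · exact Or.inl h
            · exact Or.inr h
            · exact absurd (Finset.mem_image_of_mem P (Finset.mem_range.2 hj)) hw1.2
          · rintro (h | h)
            · exact Or.inl h
            · exact Or.inr (Or.inl h))
        (fun i hi j hj => by
          rw [hN i hi (P j) (hPT j hj).1]
          constructor
          · rintro (h | h | ⟨k, hk, h1, h2⟩)
            · exact absurd (h ▸ Finset.mem_image_of_mem P (Finset.mem_range.2 hj)) haP
            · exact absurd (h ▸ Finset.mem_image_of_mem P (Finset.mem_range.2 hj)) hbP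
            · rw [hinj j hj k hk h1]; exact h2
          · intro h
            exact Or.inr (Or.inr ⟨j, hj, rfl, h⟩))
      rw [Finset.sdiff_union_of_subset hsub] at hg'
      exact ⟨g', hg'⟩

/-- A finite graph is Diophantine: its vertices can be labelled by distinct positive integers so
that two vertices are adjacent exactly when the product of their labels plus one is a square. -/
def Diophantine {V : Type} (G : SimpleGraph V) : Prop :=
  ∃ f : V → ℕ, Function.Injective f ∧ (∀ v, 0 < f v) ∧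
    ∀ a b, a ≠ b → (G.Adj a b ↔ IsSquare (f a * f b + 1))

/-- The same with the extra condition that the product of two labels is never a square. -/
def StronglyDiophantine {V : Type} (G : SimpleGraph V) : Prop :=
  ∃ f : V → ℕ, (∀ v, 0 < f v) ∧
    ∀ a b, a ≠ b → ¬ IsSquare (f a * f b) ∧ (G.Adj a b ↔ IsSquare (f a * f b + 1))

theorem StronglyDiophantine.dioph {V : Type} {G : SimpleGraph V} (h : StronglyDiophantine G) :
    Diophantine G := by
  obtain ⟨f, hf, h⟩ := h
  refine ⟨f, fun a b hab => ?_, hf, fun a b hne => (h a b hne).2⟩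
  by_contra hne
  exact (h a b hne).1 ⟨f b, by rw [hab]⟩

theorem StronglyDiophantine.comap {V W : Type} {G : SimpleGraph V} {H : SimpleGraph W}
    (e : H ↪g G) (h : StronglyDiophantine G) : StronglyDiophantine H := by
  obtain ⟨f, hf, h⟩ := h
  refine ⟨fun v => f (e v), fun v => hf _, fun a b hab => ?_⟩
  have := h (e a) (e b) (fun h => hab (e.injective h))
  rwa [e.map_adj_iff] at this

/-- `G` can be dismantled down to `A`: every vertex set `S` properly containing `A` has, outside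
`A`, a vertex with at most two neighbours in `S`, or a path `P 0, …, P (m - 1)` and an edge `a b`
of `S` such that the neighbours in `S` of `P i` are `a`, `b` and the neighbours of `P i` on the
path. -/
def DismantlesTo {V : Type} (G : SimpleGraph V) (A : Set V) : Prop :=
  ∀ S : Set V, A ⊂ S →
    (∃ v ∈ S, v ∉ A ∧ {w | w ∈ S ∧ G.Adj v w}.ncard ≤ 2) ∨
    ∃ (m : ℕ) (P : ℕ → V), ∃ a ∈ S, ∃ b ∈ S, 0 < m ∧ G.Adj a b ∧
      (∀ i < m, P i ∈ S ∧ P i ∉ A) ∧ (∀ i < m, ∀ j < m, P i = P j → i = j) ∧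
      ∀ i < m, ∀ w ∈ S, G.Adj (P i) w ↔
        w = a ∨ w = b ∨ ∃ j < m, w = P j ∧ (j = i + 1 ∨ i = j + 1)

/-- `G` can be simply dismantled down to `A`: the same, but with a vertex with at most one
neighbour in `S`. (A path with one vertex is a vertex whose neighbours in `S` are the two ends of
an edge.) -/
def SimplyDismantlesTo {V : Type} (G : SimpleGraph V) (A : Set V) : Prop :=
  ∀ S : Set V, A ⊂ S →
    (∃ v ∈ S, v ∉ A ∧ {w | w ∈ S ∧ G.Adj v w}.ncard ≤ 1) ∨
    ∃ (m : ℕ) (P : ℕ → V), ∃ a ∈ S, ∃ b ∈ S, 0 < m ∧ G.Adj a b ∧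
      (∀ i < m, P i ∈ S ∧ P i ∉ A) ∧ (∀ i < m, ∀ j < m, P i = P j → i = j) ∧
      ∀ i < m, ∀ w ∈ S, G.Adj (P i) w ↔
        w = a ∨ w = b ∨ ∃ j < m, w = P j ∧ (j = i + 1 ∨ i = j + 1)

theorem peelRep {V : Type} [Finite V] (σ : Prop) (G : SimpleGraph V) (A : Set V)
    (hA : ∃ f, Rep σ G A f) (h : ∀ S : Set V, A ⊂ S →
      (∃ v ∈ S, v ∉ A ∧ {w | w ∈ S ∧ G.Adj v w}.ncard ≤ 2 ∧
        ∀ a ∈ S, ∀ b ∈ S, G.Adj v a → G.Adj v b → a ≠ b → σ ∨ G.Adj a b) ∨
      ∃ (m : ℕ) (P : ℕ → V), ∃ a ∈ S, ∃ b ∈ S, 0 < m ∧ G.Adj a b ∧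
        (∀ i < m, P i ∈ S ∧ P i ∉ A) ∧ (∀ i < m, ∀ j < m, P i = P j → i = j) ∧
        ∀ i < m, ∀ w ∈ S, G.Adj (P i) w ↔
          w = a ∨ w = b ∨ ∃ j < m, w = P j ∧ (j = i + 1 ∨ i = j + 1)) :
    ∃ f, Rep σ G Set.univ f := by
  classical
  have := Fintype.ofFinite V
  obtain ⟨B, rfl⟩ : ∃ B : Finset V, A = (B : Set V) := ⟨A.toFinset, by simp⟩
  have h' : ∀ S : Finset V, B ⊂ S → (∃ v ∈ S, v ∉ B ∧ (S.filter (G.Adj v)).card ≤ 2 ∧
        ∀ a ∈ S, ∀ b ∈ S, G.Adj v a → G.Adj v b → a ≠ b → σ ∨ G.Adj a b) ∨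
      ∃ (m : ℕ) (P : ℕ → V), ∃ a ∈ S, ∃ b ∈ S, 0 < m ∧ G.Adj a b ∧
        (∀ i < m, P i ∈ S ∧ P i ∉ B) ∧ (∀ i < m, ∀ j < m, P i = P j → i = j) ∧
        ∀ i < m, ∀ w ∈ S, G.Adj (P i) w ↔
          w = a ∨ w = b ∨ ∃ j < m, w = P j ∧ (j = i + 1 ∨ i = j + 1) := by
    intro S hS
    rcases h S (Finset.coe_ssubset.2 hS) with ⟨v, hv, hvB, hc, hσ⟩ | h
    · left
      refine ⟨v, Finset.mem_coe.1 hv, fun h => hvB (Finset.mem_coe.2 h), ?_,
        fun a ha b hb => hσ a ha b hb⟩
      rw [← Set.ncard_coe_finset]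
      simpa using hc
    · right
      obtain ⟨m, P, a, ha, b, hb, h1, h2, h3, h4, h5⟩ := h
      exact ⟨m, P, a, ha, b, hb, h1, h2, fun i hi => ⟨(h3 i hi).1, (h3 i hi).2⟩, h4,
        fun i hi w hw => h5 i hi w hw⟩
  obtain ⟨g, hg⟩ := peel G B hA h' _ Finset.univ (Finset.subset_univ _) rfl
  exact ⟨g, by simpa using hg⟩

theorem rep_true_iff {V : Type} (G : SimpleGraph V) (A : Set V) :
    StronglyDiophantine (G.induce A) ↔ ∃ f, Rep True G A f := by
  classical
  constructor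
  · rintro ⟨f, hf, hfA⟩
    refine ⟨fun v => if hv : v ∈ A then f ⟨v, hv⟩ else 0, ?_, ?_⟩
    · intro a ha
      simp only [ha, dite_true]
      exact hf _
    · intro a ha b hb hab
      simp only [ha, hb, dite_true]
      have := hfA ⟨a, ha⟩ ⟨b, hb⟩ (fun h => hab (congrArg Subtype.val h))
      refine ⟨fun e => this.1 ⟨f ⟨b, hb⟩, by rw [e]⟩, fun _ => this.1, ?_⟩
      simpa using this.2
  · rintro ⟨f, hf, hfA⟩
    refine ⟨fun v => f v.1, fun v => hf _ v.2, fun a b hab => ?_⟩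
    have := hfA a.1 a.2 b.1 b.2 (fun h => hab (Subtype.ext h))
    exact ⟨this.2.1 trivial, by simpa using this.2.2⟩

theorem rep_false_iff {V : Type} (G : SimpleGraph V) (A : Set V) :
    Diophantine (G.induce A) ↔ ∃ f, Rep False G A f := by
  classical
  constructor
  · rintro ⟨f, hinj, hf, hfA⟩
    refine ⟨fun v => if hv : v ∈ A then f ⟨v, hv⟩ else 0, ?_, ?_⟩
    · intro a ha
      simp only [ha, dite_true]
      exact hf _
    · intro a ha b hb hab
      simp only [ha, hb, dite_true]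
      have := hfA ⟨a, ha⟩ ⟨b, hb⟩ (fun h => hab (congrArg Subtype.val h))
      refine ⟨fun e => hab (congrArg Subtype.val (hinj e)), fun h => h.elim, ?_⟩
      simpa using this
  · rintro ⟨f, hf, hfA⟩
    refine ⟨fun v => f v.1, fun a b hab => ?_, fun v => hf _ v.2, fun a b hab => ?_⟩
    · by_contra hne
      exact (hfA a.1 a.2 b.1 b.2 (fun h => hne (Subtype.ext h))).1 hab
    · have := hfA a.1 a.2 b.1 b.2 (fun h => hab (Subtype.ext h))
      simpa using this.2.2

theorem StronglyDiophantine.of_rep {V : Type} {G : SimpleGraph V}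
    (h : ∃ f, Rep True G Set.univ f) : StronglyDiophantine G := by
  obtain ⟨f, hf, hfA⟩ := h
  exact ⟨f, fun v => hf v (Set.mem_univ v), fun a b hab =>
    ⟨(hfA a (Set.mem_univ a) b (Set.mem_univ b) hab).2.1 trivial,
      (hfA a (Set.mem_univ a) b (Set.mem_univ b) hab).2.2⟩⟩

theorem Diophantine.of_rep {V : Type} {G : SimpleGraph V}
    (h : ∃ f, Rep False G Set.univ f) : Diophantine G := by
  obtain ⟨f, hf, hfA⟩ := h
  refine ⟨f, fun a b hab => ?_, fun v => hf v (Set.mem_univ v), fun a b hab =>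
    (hfA a (Set.mem_univ a) b (Set.mem_univ b) hab).2.2⟩
  by_contra hne
  exact (hfA a (Set.mem_univ a) b (Set.mem_univ b) hne).1 hab

theorem peelable {V : Type} [Finite V] (G : SimpleGraph V) (A : Set V)
    (hA : StronglyDiophantine (G.induce A)) (h : DismantlesTo G A) :
    StronglyDiophantine G := by
  refine StronglyDiophantine.of_rep (peelRep True G A ((rep_true_iff G A).1 hA) fun S hS => ?_)
  rcases h S hS with ⟨v, hv, hvA, hc⟩ | h
  · exact Or.inl ⟨v, hv, hvA, hc, fun _ _ _ _ _ _ _ => Or.inl trivial⟩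
  · exact Or.inr h

theorem simplyPeelable {V : Type} [Finite V] (G : SimpleGraph V) (A : Set V)
    (hA : Diophantine (G.induce A)) (h : SimplyDismantlesTo G A) : Diophantine G := by
  refine Diophantine.of_rep (peelRep False G A ((rep_false_iff G A).1 hA) fun S hS => ?_)
  rcases h S hS with ⟨v, hv, hvA, hc⟩ | h
  · refine Or.inl ⟨v, hv, hvA, by omega, fun a ha b hb hva hvb hab => ?_⟩
    exact absurd ((Set.ncard_le_one (Set.toFinite _)).1 hc a ⟨ha, hva⟩ b ⟨hb, hvb⟩) hab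
  · exact Or.inr h

theorem Diophantine.comap {V W : Type} {G : SimpleGraph V} {H : SimpleGraph W}
    (e : H ↪g G) (h : Diophantine G) : Diophantine H := by
  obtain ⟨f, hinj, hf, h⟩ := h
  refine ⟨fun v => f (e v), fun a b hab => e.injective (hinj hab), fun v => hf _,
    fun a b hab => ?_⟩
  have := h (e a) (e b) (fun h => hab (e.injective h))
  rwa [e.map_adj_iff] at this

theorem induce_of {V : Type} {G : SimpleGraph V} (h : StronglyDiophantine G) (A : Set V) :
    StronglyDiophantine (G.induce A) :=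
  h.comap (SimpleGraph.Embedding.induce A)

theorem twoDegenerate {V : Type} [Finite V] (G : SimpleGraph V)
    (h : ∀ S : Set V, S.Nonempty → ∃ v ∈ S, {w | w ∈ S ∧ G.Adj v w}.ncard ≤ 2) :
    StronglyDiophantine G := by
  refine peelable G ∅ ⟨fun _ => 1, fun _ => Nat.one_pos, fun a => absurd a.2 (Set.notMem_empty _)⟩ ?_
  intro S hS
  obtain ⟨v, hv, hc⟩ := h S (Set.nonempty_iff_ne_empty.2 (fun e => hS.ne e.symm))
  exact Or.inl ⟨v, hv, by simp, hc⟩

theorem cubicK4 {V : Type} [Finite V] (G : SimpleGraph V) (A : Set V)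
    (hA : ∀ v ∈ A, ∀ w, G.Adj v w → w ∈ A) (h3 : ∀ v, (G.neighborSet v).ncard ≤ 3)
    (hK : ∀ v, v ∉ A → (∀ w, G.Reachable v w → (G.neighborSet w).ncard = 3) →
      ∃ x y z, G.Adj v x ∧ G.Adj v y ∧ G.Adj v z ∧ G.Adj x y ∧ G.Adj x z ∧ G.Adj y z) :
    DismantlesTo G A := by
  intro S hS
  by_cases h2 : ∃ v ∈ S, v ∉ A ∧ {w | w ∈ S ∧ G.Adj v w}.ncard ≤ 2
  · exact Or.inl h2
  push Not at h2
  obtain ⟨v, hv, hvA⟩ := Set.exists_of_ssubset hS
  have hsub : ∀ v, {w | w ∈ S ∧ G.Adj v w} ⊆ G.neighborSet v := fun v w hw => hw.2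
  have heq : ∀ v ∈ S, v ∉ A → {w | w ∈ S ∧ G.Adj v w} = G.neighborSet v := fun v hv hvA =>
    Set.eq_of_subset_of_ncard_le (hsub v) ((h3 v).trans (h2 v hv hvA)) (Set.toFinite _)
  have hdeg : ∀ v ∈ S, v ∉ A → (G.neighborSet v).ncard = 3 := fun v hv hvA =>
    le_antisymm (h3 v) (by rw [← heq v hv hvA]; exact h2 v hv hvA)
  have hclosed : ∀ v ∈ S, v ∉ A → ∀ w, G.Adj v w → w ∈ S ∧ w ∉ A := fun v hv hvA w hvw => by
    have : w ∈ {w | w ∈ S ∧ G.Adj v w} := by rw [heq v hv hvA]; exact hvw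
    exact ⟨this.1, fun h => hvA (hA w h v hvw.symm)⟩
  have hwalk : ∀ (v w : V) (p : G.Walk v w), v ∈ S → v ∉ A → w ∈ S ∧ w ∉ A := by
    intro v w p
    induction p with
    | nil => exact fun h h' => ⟨h, h'⟩
    | cons hadj _ ih => exact fun h h' => ih (hclosed _ h h' _ hadj).1 (hclosed _ h h' _ hadj).2
  have hreach : ∀ w, G.Reachable v w → w ∈ S ∧ w ∉ A := fun w ⟨p⟩ => hwalk v w p hv hvA
  obtain ⟨x, y, z, hvx, hvy, hvz, hxy, hxz, hyz⟩ :=
    hK v hvA (fun w hw => hdeg w (hreach w hw).1 (hreach w hw).2)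
  obtain ⟨hxS, hxA⟩ := hclosed v hv hvA x hvx
  obtain ⟨hyS, hyA⟩ := hclosed v hv hvA y hvy
  obtain ⟨hzS, hzA⟩ := hclosed v hv hvA z hvz
  have hN : ∀ u ∈ S, u ∉ A → ∀ a b c : V, G.Adj u a → G.Adj u b → G.Adj u c → a ≠ b → a ≠ c →
      b ≠ c → ∀ w ∈ S, G.Adj u w ↔ w = a ∨ w = b ∨ w = c := by
    intro u hu huA a b c ha hb hc hab hac hbc w hw
    have h4 : ({a, b, c} : Set V) = G.neighborSet u := by
      apply Set.eq_of_subset_of_ncard_le
      · rintro t (rfl | rfl | rfl)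
        · exact ha
        · exact hb
        · exact hc
      · rw [hdeg u hu huA, Set.ncard_eq_three.2 ⟨a, b, c, hab, hac, hbc, rfl⟩]
      · exact Set.toFinite _
    have h5 : w ∈ ({a, b, c} : Set V) ↔ G.Adj u w := by rw [h4]; rfl
    rw [← h5]; simp
  refine Or.inr ⟨2, fun i => if i = 0 then v else x, y, hyS, z, hzS, by omega, hyz, ?_, ?_, ?_⟩
  · intro i hi
    interval_cases i <;> simp [hv, hxS, hvA, hxA]
  · intro i hi j hj
    have := hvx.ne
    have := hvx.ne'
    interval_cases i <;> interval_cases j <;> simp_all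
  · intro i hi w hw
    interval_cases i
    · simp only [if_true]
      rw [hN v hv hvA x y z hvx hvy hvz hxy.ne hxz.ne hyz.ne w hw]
      constructor
      · rintro (h | h | h)
        · exact Or.inr (Or.inr ⟨1, by omega, by simpa using h, Or.inl rfl⟩)
        · exact Or.inl h
        · exact Or.inr (Or.inl h)
      · rintro (h | h | ⟨j, hj, h, h'⟩)
        · exact Or.inr (Or.inl h)
        · exact Or.inr (Or.inr h)
        · left
          have : j = 1 := by omega
          subst this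
          simpa using h
    · simp only [one_ne_zero, if_false]
      rw [hN x hxS hxA v y z hvx.symm hxy hxz hvy.ne hvz.ne hyz.ne w hw]
      constructor
      · rintro (h | h | h)
        · exact Or.inr (Or.inr ⟨0, by omega, by simpa using h, Or.inr rfl⟩)
        · exact Or.inl h
        · exact Or.inr (Or.inl h)
      · rintro (h | h | ⟨j, hj, h, h'⟩)
        · exact Or.inr (Or.inl h)
        · exact Or.inr (Or.inr h)
        · left
          have : j = 0 := by omega
          subst this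
          simpa using h

/-- Countable version: each vertex has at most two smaller neighbours. -/
theorem countable (G : SimpleGraph ℕ) (h : ∀ n, {m | m < n ∧ G.Adj n m}.ncard ≤ 2) :
    StronglyDiophantine G := by
  classical
  have hstep : ∀ n : ℕ, ∀ f : ℕ → ℕ, Rep True G (Finset.range n : Finset ℕ) f →
      ∃ x : ℕ, Rep True G (Finset.range (n + 1) : Finset ℕ) (Function.update f n x) := by
    intro n f hf
    obtain ⟨x, hx⟩ := step G (Finset.range n) f hf n (by simp) (by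
      rw [← Set.ncard_coe_finset]
      simpa using h n) (fun _ _ _ _ _ _ _ => Or.inl trivial)
    exact ⟨x, by rw [Finset.range_add_one]; exact hx⟩
  choose X hX using hstep
  let F : (n : ℕ) → {f : ℕ → ℕ // Rep True G (Finset.range n : Finset ℕ) f} := fun n =>
    Nat.rec ⟨fun _ => 1, by simp [Rep]⟩
      (fun n f => ⟨Function.update f.1 n (X n f.1 f.2), hX n f.1 f.2⟩) n
  have hF : ∀ n, (F (n + 1)).1 = Function.update (F n).1 n (X n (F n).1 (F n).2) := fun n => rfl
  have hagree : ∀ k m, k < m → (F m).1 k = (F (k + 1)).1 k := by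
    intro k m hkm
    induction m with
    | zero => omega
    | succ m ih =>
      rcases Nat.lt_succ_iff_lt_or_eq.1 hkm with h1 | h1
      · rw [hF m, Function.update_of_ne h1.ne]
        exact ih h1
      · rw [h1]
  refine ⟨fun n => (F (n + 1)).1 n, fun n => (F (n + 1)).2.1 n (by simp), fun a b hab => ?_⟩
  have h1 := (F (max a b + 1)).2.2 a (by simp) b (by simp) hab
  rw [hagree a (max a b + 1) (by omega), hagree b (max a b + 1) (by omega)] at h1
  exact ⟨h1.2.1 trivial, h1.2.2⟩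

/-- The triangular prism (complement of the 6-cycle): triangles `012`, `345`, and `03`, `14`,
`25`. -/
def prism : SimpleGraph (Fin 6) :=
  SimpleGraph.fromRel fun a b => (a.1 < 3 ∧ b.1 < 3) ∨ (3 ≤ a.1 ∧ 3 ≤ b.1) ∨ b.1 = a.1 + 3

instance : DecidableRel prism.Adj := fun a b => by
  unfold prism; rw [SimpleGraph.fromRel_adj]; infer_instance

/-- a decidable certificate for squares and nonsquares -/
def chk (n : ℕ) (b : Bool) : Bool :=
  if b then Nat.sqrt n * Nat.sqrt n == n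
  else Nat.sqrt n * Nat.sqrt n < n && n < (Nat.sqrt n + 1) * (Nat.sqrt n + 1)

theorem chk_spec {n : ℕ} {b : Bool} (h : chk n b = true) : IsSquare n ↔ b = true := by
  unfold chk at h
  cases b
  · simp only [Bool.false_eq_true, if_false, Bool.and_eq_true, decide_eq_true_eq] at h
    simpa using not_isSquare_of _ h.1 h.2
  · simp only [if_true, beq_iff_eq] at h
    simpa using ⟨_, h.symm⟩

theorem strong_of_chk {k : ℕ} (G : SimpleGraph (Fin k)) [DecidableRel G.Adj] (f : Fin k → ℕ)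
    (h0 : ∀ a, 0 < f a)
    (h : ∀ a b, a ≠ b → chk (f a * f b) false = true ∧
      chk (f a * f b + 1) (decide (G.Adj a b)) = true) : StronglyDiophantine G := by
  refine ⟨f, h0, fun a b hab => ⟨?_, ?_⟩⟩
  · rw [chk_spec (h a b hab).1]; simp
  · rw [chk_spec (h a b hab).2]; simp

theorem strong_prism : StronglyDiophantine prism :=
  strong_of_chk prism ![1, 3, 8, 168, 96, 10] (by decide) (by decide +kernel)

theorem strong_empty {V : Type} (G : SimpleGraph V) :
    StronglyDiophantine (G.induce (∅ : Set V)) :=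
  ⟨fun _ => 1, fun _ => Nat.one_pos, fun a => absurd a.2 (Set.notMem_empty _)⟩

end Pool.Agent.DiophGraph
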